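import Pool.Agent.Helper22.AE.Defs

/-!
# Project LMA (MP_fb29e9_nt, AlmostEveryLattice), block X1: positive-definite domination

For `S(r) = ∑ ee (r ω_i)` the integral of `|S|²` over `[r₀ - Y, r₀ + Y]` is at most twice its integral over `[-2Y, 2Y]`.
-/

open MeasureTheory Real Set Filter Topology

set_option autoImplicit false

namespace Pool.Agent.Helper27.LX

open Pool.Agent.Helper22.AE

section

variable {ι : Type} [Fintype ι]

/-- the sum -/
noncomputable def Sx (ω : ι → ℝ) (r : ℝ) : ℂ := ∑ i, ee (r * ω i)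

theorem Sx_cont (ω : ι → ℝ) : Continuous (Sx ω) := by
  unfold Sx
  exact continuous_finsetSum _ fun i _ => ee_cont.comp (by fun_prop)

theorem Sx_sq (ω : ι → ℝ) (r : ℝ) : ((‖Sx ω r‖ ^ 2 : ℝ) : ℂ) = ∑ i, ∑ j, ee (r * (ω i - ω j)) := by
  rw [← Complex.normSq_eq_norm_sq, ← Complex.mul_conj]
  unfold Sx
  rw [map_sum, Finset.sum_mul_sum]
  refine Finset.sum_congr rfl fun i _ => Finset.sum_congr rfl fun j _ => ?_
  rw [← ee_neg, ← ee_add]
  congr 1
  ring

/-- the double integral -/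
noncomputable def Dd (ω : ι → ℝ) (Z r₀ : ℝ) : ℝ := ∫ t in (0 : ℝ)..Z, ∫ s in (0 : ℝ)..Z, ‖Sx ω (s + (r₀ - t))‖ ^ 2

theorem conj_int (Z d : ℝ) : ∫ t in (0 : ℝ)..Z, ee (-t * d) = (starRingEnd ℂ) (∫ s in (0 : ℝ)..Z, ee (s * d)) := by
  simp_rw [neg_mul, ee_neg]
  simp only [intervalIntegral, integral_conj, map_sub]

theorem Dd_eq (ω : ι → ℝ) (Z r₀ : ℝ) :
    ((Dd ω Z r₀ : ℝ) : ℂ) = ∑ i, ∑ j, ee (r₀ * (ω i - ω j)) * ((‖∫ s in (0 : ℝ)..Z, ee (s * (ω i - ω j))‖ ^ 2 : ℝ) : ℂ) := by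
  have hI : ∀ (d a b : ℝ), IntervalIntegrable (fun s : ℝ => ee (s * d)) volume a b := fun d a b =>
    (ee_cont.comp (by fun_prop)).intervalIntegrable _ _
  have hI' : ∀ (d a b : ℝ), IntervalIntegrable (fun s : ℝ => ee (-s * d)) volume a b := fun d a b =>
    (ee_cont.comp (by fun_prop)).intervalIntegrable _ _
  unfold Dd
  rw [← intervalIntegral.integral_ofReal]
  have h1 : ∀ t : ℝ, ((∫ s in (0 : ℝ)..Z, ‖Sx ω (s + (r₀ - t))‖ ^ 2 : ℝ) : ℂ) =
      ∑ i, ∑ j, (ee (r₀ * (ω i - ω j)) * ∫ s in (0 : ℝ)..Z, ee (s * (ω i - ω j))) * ee (-t * (ω i - ω j)) := by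
    intro t
    rw [← intervalIntegral.integral_ofReal]
    simp_rw [Sx_sq]
    have h2 : ∀ (i j : ι), ∀ s : ℝ, ee ((s + (r₀ - t)) * (ω i - ω j)) = (ee (r₀ * (ω i - ω j)) * ee (-t * (ω i - ω j))) * ee (s * (ω i - ω j)) := by
      intro i j s
      rw [← ee_add, ← ee_add]
      congr 1
      ring
    simp_rw [h2]
    rw [intervalIntegral.integral_finsetSum fun i _ => ?_]
    · refine Finset.sum_congr rfl fun i _ => ?_
      rw [intervalIntegral.integral_finsetSum fun j _ => ((hI _ _ _).const_mul _)]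
      refine Finset.sum_congr rfl fun j _ => ?_
      rw [intervalIntegral.integral_const_mul]
      ring
    · exact (continuous_finsetSum _ fun j _ => continuous_const.mul (ee_cont.comp (by fun_prop))).intervalIntegrable _ _
  simp_rw [h1]
  rw [intervalIntegral.integral_finsetSum fun i _ => ?_]
  · refine Finset.sum_congr rfl fun i _ => ?_
    rw [intervalIntegral.integral_finsetSum fun j _ => ((hI' _ _ _).const_mul _)]
    refine Finset.sum_congr rfl fun j _ => ?_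
    rw [intervalIntegral.integral_const_mul, conj_int, mul_assoc, Complex.mul_conj, Complex.normSq_eq_norm_sq]
  · exact (continuous_finsetSum _ fun j _ => continuous_const.mul (ee_cont.comp (by fun_prop))).intervalIntegrable _ _

theorem Dd_nonneg (ω : ι → ℝ) {Z : ℝ} (hZ : 0 ≤ Z) (r₀ : ℝ) : 0 ≤ Dd ω Z r₀ :=
  intervalIntegral.integral_nonneg hZ fun _ _ => intervalIntegral.integral_nonneg hZ fun _ _ => by positivity

theorem Dd_le (ω : ι → ℝ) {Z : ℝ} (hZ : 0 ≤ Z) (r₀ : ℝ) : Dd ω Z r₀ ≤ Dd ω Z 0 := by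
  have h1 : ((Dd ω Z 0 : ℝ) : ℂ) = ((∑ i, ∑ j, ‖∫ s in (0 : ℝ)..Z, ee (s * (ω i - ω j))‖ ^ 2 : ℝ) : ℂ) := by
    rw [Dd_eq]
    push_cast
    refine Finset.sum_congr rfl fun i _ => Finset.sum_congr rfl fun j _ => ?_
    rw [zero_mul, ee_zero, one_mul]
  have h2 : Dd ω Z 0 = ∑ i, ∑ j, ‖∫ s in (0 : ℝ)..Z, ee (s * (ω i - ω j))‖ ^ 2 := by exact_mod_cast h1
  have h3 : ‖((Dd ω Z r₀ : ℝ) : ℂ)‖ ≤ ∑ i, ∑ j, ‖∫ s in (0 : ℝ)..Z, ee (s * (ω i - ω j))‖ ^ 2 := by
    rw [Dd_eq]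
    refine (norm_sum_le _ _).trans (Finset.sum_le_sum fun i _ => (norm_sum_le _ _).trans (Finset.sum_le_sum fun j _ => ?_))
    rw [norm_mul, ee_norm, one_mul, Complex.norm_real, norm_of_nonneg (by positivity)]
  rw [h2]
  rwa [Complex.norm_real, norm_of_nonneg (Dd_nonneg ω hZ r₀)] at h3

/-- the domination for one sum -/
theorem dom_one (ω : ι → ℝ) (r₀ : ℝ) {Y : ℝ} (hY : 0 < Y) :
    ∫ r in (r₀ - Y)..(r₀ + Y), ‖Sx ω r‖ ^ 2 ≤ 2 * ∫ r in (-(2 * Y))..(2 * Y), ‖Sx ω r‖ ^ 2 := by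
  obtain ⟨g, hg⟩ : ∃ g : ℝ → ℝ, g = fun r => ‖Sx ω r‖ ^ 2 := ⟨_, rfl⟩
  have hgc : Continuous g := by
    rw [hg]
    exact (Sx_cont ω).norm.pow 2
  have hg0 : ∀ x, 0 ≤ g x := by intro x; rw [hg]; positivity
  have hgi : ∀ a b, IntervalIntegrable g volume a b := fun a b => hgc.intervalIntegrable _ _
  have hmono : ∀ {a b c d : ℝ}, c ≤ a → a ≤ b → b ≤ d → ∫ x in a..b, g x ≤ ∫ x in c..d, g x := by
    intro a b c d h1 h2 h3
    exact intervalIntegral.integral_mono_interval h1 h2 h3 (Eventually.of_forall hg0) (hgi _ _)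
  have hin : ∀ r₀ t : ℝ, ∫ s in (0 : ℝ)..(2 * Y), g (s + (r₀ - t)) = ∫ x in (r₀ - t)..(2 * Y + (r₀ - t)), g x := by
    intro r₀ t
    rw [intervalIntegral.integral_comp_add_right]
    rw [zero_add]
  have hDd : ∀ r₀, Dd ω (2 * Y) r₀ = ∫ t in (0 : ℝ)..(2 * Y), ∫ x in (r₀ - t)..(2 * Y + (r₀ - t)), g x := by
    intro r₀
    unfold Dd
    refine intervalIntegral.integral_congr fun t _ => ?_
    have := hin r₀ t
    rw [hg] at this ⊢
    exact this
  have hinc : ∀ r₀ : ℝ, Continuous fun t : ℝ => ∫ x in (r₀ - t)..(2 * Y + (r₀ - t)), g x := by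
    intro r₀
    have h1 : (fun t : ℝ => ∫ x in (r₀ - t)..(2 * Y + (r₀ - t)), g x) =
        fun t : ℝ => (∫ x in (0 : ℝ)..(2 * Y + (r₀ - t)), g x) - ∫ x in (0 : ℝ)..(r₀ - t), g x := by
      funext t
      rw [intervalIntegral.integral_interval_sub_left (hgi _ _) (hgi _ _)]
    rw [h1]
    have h2 : Continuous fun y : ℝ => ∫ x in (0 : ℝ)..y, g x := intervalIntegral.continuous_primitive hgi 0
    exact (h2.comp (by fun_prop)).sub (h2.comp (by fun_prop))
  have h2Y : (0 : ℝ) ≤ 2 * Y := by positivity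
  -- upper bound
  have hup : Dd ω (2 * Y) 0 ≤ 2 * Y * ∫ x in (-(2 * Y))..(2 * Y), g x := by
    rw [hDd]
    have h1 : ∫ t in (0 : ℝ)..(2 * Y), ∫ x in (0 - t)..(2 * Y + (0 - t)), g x ≤ ∫ _t in (0 : ℝ)..(2 * Y), ∫ x in (-(2 * Y))..(2 * Y), g x := by
      refine intervalIntegral.integral_mono_on h2Y ((hinc 0).intervalIntegrable _ _) (continuous_const.intervalIntegrable _ _) fun t ht => ?_
      exact hmono (by linarith [ht.2]) (by linarith) (by linarith [ht.1])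
    rwa [intervalIntegral.integral_const, sub_zero, smul_eq_mul] at h1
  -- lower bound
  have hlo : Y * ∫ x in (r₀ - Y)..(r₀ + Y), g x ≤ Dd ω (2 * Y) r₀ := by
    rw [hDd]
    have h1 : ∫ _t in (0 : ℝ)..Y, ∫ x in r₀..(r₀ + Y), g x ≤ ∫ t in (0 : ℝ)..Y, ∫ x in (r₀ - t)..(2 * Y + (r₀ - t)), g x := by
      refine intervalIntegral.integral_mono_on hY.le (continuous_const.intervalIntegrable _ _) ((hinc r₀).intervalIntegrable _ _) fun t ht => ?_
      exact hmono (by linarith [ht.1]) (by linarith) (by linarith [ht.2])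
    have h2 : ∫ _t in Y..(2 * Y), ∫ x in (r₀ - Y)..r₀, g x ≤ ∫ t in Y..(2 * Y), ∫ x in (r₀ - t)..(2 * Y + (r₀ - t)), g x := by
      refine intervalIntegral.integral_mono_on (by linarith) (continuous_const.intervalIntegrable _ _) ((hinc r₀).intervalIntegrable _ _) fun t ht => ?_
      exact hmono (by linarith [ht.1]) (by linarith) (by linarith [ht.2])
    rw [intervalIntegral.integral_const, sub_zero, smul_eq_mul] at h1
    rw [intervalIntegral.integral_const, smul_eq_mul, show 2 * Y - Y = Y by ring] at h2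
    rw [← intervalIntegral.integral_add_adjacent_intervals ((hinc r₀).intervalIntegrable 0 Y) ((hinc r₀).intervalIntegrable Y (2 * Y)),
      ← intervalIntegral.integral_add_adjacent_intervals (hgi (r₀ - Y) r₀) (hgi r₀ (r₀ + Y))]
    linarith
  have hmid := Dd_le ω h2Y r₀
  have h3 : Y * ∫ x in (r₀ - Y)..(r₀ + Y), g x ≤ Y * (2 * ∫ x in (-(2 * Y))..(2 * Y), g x) := by
    calc Y * ∫ x in (r₀ - Y)..(r₀ + Y), g x ≤ 2 * Y * ∫ x in (-(2 * Y))..(2 * Y), g x := hlo.trans (hmid.trans hup)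
      _ = Y * (2 * ∫ x in (-(2 * Y))..(2 * Y), g x) := by ring
  have h4 := le_of_mul_le_mul_left h3 hY
  rw [hg] at h4
  exact h4

end

end Pool.Agent.Helper27.LX
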