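import Pool.Agent.Helper92.LW.Osc
import Pool.Agent.Helper60.WC.SupE
import Pool.Agent.Helper92.GC.R0

/-!
# Project LMA (MP_fb29e9_nt, AlmostEveryLattice), block X7: the largest error is not small in the mean

One Fourier coefficient (in the centre) of the main sum, for every oval, and the tail hypothesis of the limit law.
-/

open MeasureTheory Real Set Filter Topology

set_option autoImplicit false

namespace Pool.Agent.Helper27.LX

open Pool.Agent.Helper22.AE
open Pool.Agent.Helper22.AC (cntc)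
open Pool.Agent.Helper22.WC (SupE)
open Pool.Agent.Helper93.EX (Mx ak prim sn fJ)
open Pool.Agent.Helper3.AM (TT ss aa ph Mx_eq osc)
open Pool.Agent.Helper92.LW
open Pool.Agent.Helper92.GC (dt Tq ee_int)
open Pool.Agent.Helper60.WC (supE_facts supE_nonneg le_supE)

theorem exp_ee (x : ℝ) : Complex.exp ((2 * π * x : ℝ) * Complex.I) = ee x := rfl

theorem dt_cont (k : ℤ × ℤ) : Continuous (dt k) := by
  unfold dt
  fun_prop

theorem Tq_cpt : IsCompact Tq := isCompact_Icc.prod isCompact_Icc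

theorem int_Tq {E : Type} [NormedAddCommGroup E] {f : ℝ × ℝ → E} (hf : Continuous f) : Integrable f (volume.restrict Tq) :=
  hf.continuousOn.integrableOn_compact Tq_cpt

/-- the Fourier coefficient of the main sum at `(1, 0)` -/
noncomputable def Ac (H : ℝ → ℝ) (N : ℕ) (R : ℝ) : ℂ := ∫ c in Tq, ((Mx H N R c : ℝ) : ℂ) * ee (-dt kz c)

/-- the vector of the frequency in the centre -/
def fv (v : (ℤ × ℤ) × ℕ × Bool) : ℤ × ℤ := (ss v * v.1.1 - 1, ss v * v.1.2)

theorem Ac_eq (H : ℝ → ℝ) (N : ℕ) (R : ℝ) :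
    Ac H N R = ∑ v ∈ TT N, (if fv v = 0 then aa H N v * ee (R * ((ss v : ℝ) * (nk v.1 * H (tk v.1)))) else 0) := by
  unfold Ac
  have h1 : ∀ c : ℝ × ℝ, ((Mx H N R c : ℝ) : ℂ) * ee (-dt kz c) =
      ∑ v ∈ TT N, (aa H N v * ee (R * ((ss v : ℝ) * (nk v.1 * H (tk v.1))))) * ee (dt (fv v) c) := by
    intro c
    rw [Mx_eq, Finset.sum_mul]
    refine Finset.sum_congr rfl fun v _ => ?_
    rw [exp_ee, mul_assoc, mul_assoc, ← ee_add, ← ee_add]
    congr 2
    unfold ph dt fv kz
    push_cast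
    ring
  simp_rw [h1]
  rw [integral_finsetSum]
  · refine Finset.sum_congr rfl fun v _ => ?_
    rw [integral_const_mul, ee_int]
    split_ifs <;> simp
  · intro v _
    exact int_Tq (continuous_const.mul (ee_cont.comp (dt_cont _)))

theorem fv_vz : fv vz = 0 := by
  unfold fv vz kz ss
  simp

/-- the other term has another frequency -/
theorem wz_ne {H : ℝ → ℝ} (hw : 0 < H 0 + H π) {v : (ℤ × ℤ) × ℕ × Bool} (hv : fv v = 0) (hne : v ≠ vz) : wz H v ≠ 0 := by
  obtain ⟨⟨a, b⟩, j, s⟩ := v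
  have h1 : ss ((a, b), j, s) * a = 1 := by
    have := congrArg Prod.fst hv
    simp only [fv, Prod.fst_zero] at this
    linarith
  have h2 : ss ((a, b), j, s) * b = 0 := by
    have := congrArg Prod.snd hv
    simpa [fv] using this
  have hs : ss ((a, b), j, s) ≠ 0 := by
    intro h
    rw [h, zero_mul] at h1
    exact zero_ne_one h1
  have hb : b = 0 := by
    rcases mul_eq_zero.1 h2 with h | h
    · exact absurd h hs
    · exact h
  subst hb
  rcases Int.mul_eq_one_iff_eq_one_or_neg_one.1 h1 with ⟨h3, h4⟩ | ⟨h3, h4⟩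
  · exfalso
    apply hne
    subst h4
    cases s
    · simp only [ss, Bool.false_eq_true, if_false] at h3
      omega
    · simp only [ss, if_true] at h3
      have : j = 0 := by omega
      subst this
      rfl
  · subst h4
    unfold wz
    simp only
    rw [h3, nk_neg, tk_neg]
    push_cast
    intro h
    linarith

theorem Mx_c_cont (H : ℝ → ℝ) (N : ℕ) (R : ℝ) : Continuous fun c : ℝ × ℝ => Mx H N R c := by
  unfold Mx fJ
  fun_prop

theorem Ac_cont (H : ℝ → ℝ) (N : ℕ) : Continuous (Ac H N) := by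
  have h : Ac H N = fun R => ∑ v ∈ TT N, (if fv v = 0 then aa H N v * ee (R * ((ss v : ℝ) * (nk v.1 * H (tk v.1)))) else 0) := by
    funext R
    exact Ac_eq H N R
  rw [h]
  refine continuous_finsetSum _ fun v _ => ?_
  split_ifs
  · exact continuous_const.mul (ee_cont.comp (by fun_prop))
  · exact continuous_const

/-- the coefficient is at most the supremum -/
theorem Ac_le {H : ℝ → ℝ} {N : ℕ} {R B : ℝ} (h : ∀ c : ℝ × ℝ, |Mx H N R c| ≤ B) : ‖Ac H N R‖ ≤ B := by
  unfold Ac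
  have hvol : volume.real Tq = 1 := by
    unfold Tq
    rw [Measure.real, Measure.volume_eq_prod, Measure.prod_prod, Real.volume_Icc]
    simp
  refine (norm_integral_le_integral_norm _).trans ?_
  have h1 : ∫ c in Tq, ‖((Mx H N R c : ℝ) : ℂ) * ee (-dt kz c)‖ ≤ ∫ _c in Tq, B := by
    refine integral_mono (int_Tq ?_) (int_Tq continuous_const) fun c => ?_
    · exact ((Complex.continuous_ofReal.comp (Mx_c_cont H N R)).mul (ee_cont.comp (dt_cont kz).neg)).norm
    · show ‖((Mx H N R c : ℝ) : ℂ) * ee (-dt kz c)‖ ≤ B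
      rw [norm_mul, ee_norm, mul_one, Complex.norm_real]
      exact h c
  rwa [setIntegral_const, hvol, one_smul] at h1

/-- the mean of the coefficient -/
theorem Ac_lower {H : ℝ → ℝ} (h2 : ContDiff ℝ 2 H) (hp : Function.Periodic H (2 * π)) (hr : ∀ θ, 0 < H θ + deriv (deriv H) θ)
    {N : ℕ} (hN : 2 ≤ N) : ∃ K : ℝ, 0 ≤ K ∧ ∀ X : ℝ, 1 ≤ X → az H * X - K ≤ ∫ R in X..(2 * X), ‖Ac H N R‖ := by
  classical
  have ha := az_pos hr
  obtain ⟨K, hK⟩ : ∃ K : ℝ, K = ∑ v ∈ (TT N).erase vz, ‖aa H N v‖ * (2 / (2 * π * |wz H v|)) := ⟨_, rfl⟩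
  have hK0 : 0 ≤ K := by
    rw [hK]
    exact Finset.sum_nonneg fun v _ => by positivity
  refine ⟨K, hK0, fun X hX1 => ?_⟩
  have hX0 : 0 < X := by linarith
  have hX2 : X ≤ 2 * X := by linarith
  have htw : ∀ R : ℝ, Ac H N R * ee (R * -(H 0)) =
      ∑ v ∈ TT N, (if fv v = 0 then aa H N v * Complex.exp ((2 * π * wz H v : ℝ) * Complex.I * R) else 0) := by
    intro R
    rw [Ac_eq, Finset.sum_mul]
    refine Finset.sum_congr rfl fun v _ => ?_
    split_ifs
    · rw [mul_assoc, ← ee_add]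
      congr 1
      unfold ee wz
      congr 1
      push_cast
      ring
    · rw [zero_mul]
  have hcon : ∀ v : (ℤ × ℤ) × ℕ × Bool, Continuous fun R : ℝ => (if fv v = 0 then aa H N v * Complex.exp ((2 * π * wz H v : ℝ) * Complex.I * R) else 0) := by
    intro v
    split_ifs
    · fun_prop
    · exact continuous_const
  have hint : ∫ R in X..(2 * X), Ac H N R * ee (R * -(H 0)) =
      ∑ v ∈ TT N, ∫ R in X..(2 * X), (if fv v = 0 then aa H N v * Complex.exp ((2 * π * wz H v : ℝ) * Complex.I * R) else 0) := by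
    simp_rw [htw]
    rw [intervalIntegral.integral_finsetSum]
    intro v _
    exact (hcon v).intervalIntegrable _ _
  rw [← Finset.add_sum_erase _ _ (vz_mem hN)] at hint
  have hw0 : wz H vz = 0 := by
    unfold wz vz
    rw [nk_kz, tk_kz]
    simp [ss]
  have e1 : ∫ R in X..(2 * X), (if fv vz = 0 then aa H N vz * Complex.exp ((2 * π * wz H vz : ℝ) * Complex.I * (R : ℂ)) else 0) = aa H N vz * (X : ℂ) := by
    rw [hw0]
    simp only [fv_vz, if_true, mul_zero, Complex.ofReal_zero, zero_mul, Complex.exp_zero, mul_one, intervalIntegral.integral_const]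
    rw [Complex.real_smul]
    push_cast
    ring
  rw [e1] at hint
  have hb : ‖∑ v ∈ (TT N).erase vz, ∫ R in X..(2 * X), (if fv v = 0 then aa H N v * Complex.exp ((2 * π * wz H v : ℝ) * Complex.I * (R : ℂ)) else 0)‖ ≤ K := by
    rw [hK]
    refine (norm_sum_le _ _).trans (Finset.sum_le_sum fun v hv => ?_)
    by_cases hf : fv v = 0
    · have hv0 : wz H v ≠ 0 := wz_ne (width_pos h2 hp hr) hf (Finset.mem_erase.1 hv).1
      simp only [hf, if_true]
      rw [intervalIntegral.integral_const_mul, norm_mul]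
      exact mul_le_mul_of_nonneg_left (osc hv0) (norm_nonneg _)
    · simp only [hf, if_false, intervalIntegral.integral_zero, norm_zero]
      positivity
  have h3 : az H * X - K ≤ ‖∫ R in X..(2 * X), Ac H N R * ee (R * -(H 0))‖ := by
    rw [hint]
    have h4 := norm_sub_le_norm_add (aa H N vz * (X : ℂ))
      (∑ v ∈ (TT N).erase vz, ∫ R in X..(2 * X), (if fv v = 0 then aa H N v * Complex.exp ((2 * π * wz H v : ℝ) * Complex.I * (R : ℂ)) else 0))
    rw [norm_mul, aa_vz hr hN, Complex.norm_real, Real.norm_eq_abs, abs_of_pos hX0] at h4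
    linarith
  refine h3.trans ((intervalIntegral.norm_integral_le_integral_norm hX2).trans (le_of_eq ?_))
  refine intervalIntegral.integral_congr fun R _ => ?_
  show ‖Ac H N R * ee (R * -(H 0))‖ = ‖Ac H N R‖
  rw [norm_mul, ee_norm, mul_one]

/-- X7: the largest error is not small in the mean -/
theorem lb_of_tail {H : ℝ → ℝ} (hH : ContDiff ℝ 2 H) (hp : Function.Periodic H (2 * π)) (hr : ∀ θ, 0 < H θ + deriv (deriv H) θ)
    (htail : ∀ η : ℝ, 0 < η → ∃ (n0 : ℕ) (X₀ : ℝ), 1 ≤ n0 ∧ 1 ≤ X₀ ∧ ∀ X : ℝ, X₀ ≤ X → ∃ V : ℝ → ℝ, IntegrableOn V (Icc X (2 * X)) ∧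
      (∀ R ∈ Icc X (2 * X), ∀ c : ℝ × ℝ, |cntc H c R - area H * R ^ 2 - sqrt R * Mx H (2 ^ n0) R c| ^ 2 ≤ V R) ∧ ∫ R in Icc X (2 * X), V R ≤ η * X ^ 2) :
    ∃ b : ℝ, 0 < b ∧ ∃ X₀ : ℝ, ∀ X : ℝ, X₀ ≤ X → ENNReal.ofReal (b * X ^ (3 / 2 : ℝ)) ≤
      ∫⁻ R in Icc X (2 * X), ⨆ c : ℝ × ℝ, ENNReal.ofReal |cntc H c R - area H * R ^ 2| := by
  have ha := az_pos hr
  obtain ⟨f1, f2, f3, f4⟩ := supE_facts hH hp hr
  obtain ⟨a, had⟩ : ∃ a : ℝ, a = az H := ⟨_, rfl⟩
  rw [← had] at ha
  obtain ⟨n0, X₁, hn0, hX₁, h1⟩ := htail ((a / 4) ^ 2) (by positivity)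
  have hN : 2 ≤ 2 ^ n0 := by
    calc 2 = 2 ^ 1 := (pow_one 2).symm
      _ ≤ 2 ^ n0 := Nat.pow_le_pow_right (by norm_num) hn0
  obtain ⟨K, hK, hlow⟩ := Ac_lower hH hp hr hN
  rw [← had] at hlow
  refine ⟨a / 2, by positivity, max X₁ (4 * K / a), fun X hX => ?_⟩
  have hXa : X₁ ≤ X := (le_max_left _ _).trans hX
  have hXb : 4 * K / a ≤ X := (le_max_right _ _).trans hX
  have hX1 : 1 ≤ X := hX₁.trans hXa
  have hX0 : 0 < X := by linarith
  have hX2 : X ≤ 2 * X := by linarith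
  have hsX : 0 < sqrt X := Real.sqrt_pos.2 hX0
  obtain ⟨V, v1, v2, v3⟩ := h1 X hXa
  obtain ⟨l, hl⟩ : ∃ l : ℝ, l = a / 4 * sqrt X := ⟨_, rfl⟩
  have hl0 : 0 < l := by rw [hl]; positivity
  -- integrability
  have iS : IntegrableOn (SupE H) (Icc X (2 * X)) := by
    obtain ⟨C, hC⟩ := f2 (2 * X)
    refine Integrable.mono' (g := fun _ => C) (continuousOn_const.integrableOn_compact isCompact_Icc) f3.aestronglyMeasurable ?_
    refine (ae_restrict_iff' measurableSet_Icc).2 (Eventually.of_forall fun R hR => ?_)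
    have h2 := hC R ⟨hX1.trans hR.1, hR.2⟩
    rw [Real.norm_eq_abs, abs_of_nonneg h2.1]
    exact h2.2
  have iC : IntegrableOn (fun _ : ℝ => l / 2) (Icc X (2 * X)) := continuousOn_const.integrableOn_compact isCompact_Icc
  -- the pointwise bound
  have hpt : ∀ R ∈ Icc X (2 * X), ‖Ac H (2 ^ n0) R‖ ≤ (SupE H R + V R / (2 * l) + l / 2) / sqrt X := by
    intro R hR
    refine Ac_le fun c => ?_
    have hR0 : 0 < R := by linarith [hR.1]
    have hsR : sqrt X ≤ sqrt R := Real.sqrt_le_sqrt hR.1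
    have h2 := v2 R hR c
    have h3 : |cntc H c R - area H * R ^ 2| ≤ SupE H R := le_ciSup (f1 R) c
    obtain ⟨y, hy⟩ : ∃ y : ℝ, y = |cntc H c R - area H * R ^ 2 - sqrt R * Mx H (2 ^ n0) R c| := ⟨_, rfl⟩
    rw [← hy] at h2
    have h4 : y ≤ V R / (2 * l) + l / 2 := by
      have h5 : y ≤ y ^ 2 / (2 * l) + l / 2 := by
        have h6 : y ^ 2 / (2 * l) + l / 2 - y = (y - l) ^ 2 / (2 * l) := by
          field_simp
          ring
        have h7 : 0 ≤ (y - l) ^ 2 / (2 * l) := by positivity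
        linarith
      have h8 := div_le_div_of_nonneg_right h2 (by positivity : (0 : ℝ) ≤ 2 * l)
      linarith
    have h9 : sqrt R * |Mx H (2 ^ n0) R c| ≤ |cntc H c R - area H * R ^ 2| + y := by
      have h10 : sqrt R * |Mx H (2 ^ n0) R c| = |sqrt R * Mx H (2 ^ n0) R c| := by
        rw [abs_mul, abs_of_nonneg (Real.sqrt_nonneg R)]
      have h11 := abs_sub_abs_le_abs_sub (sqrt R * Mx H (2 ^ n0) R c) (cntc H c R - area H * R ^ 2)
      rw [abs_sub_comm (sqrt R * Mx H (2 ^ n0) R c)] at h11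
      rw [h10, hy]
      linarith
    rw [le_div_iff₀ hsX]
    have h12 : |Mx H (2 ^ n0) R c| * sqrt X ≤ sqrt R * |Mx H (2 ^ n0) R c| := by
      rw [mul_comm]
      exact mul_le_mul_of_nonneg_right hsR (abs_nonneg _)
    linarith
  have h2 := hlow X hX1
  have h3 : ∫ R in X..(2 * X), ‖Ac H (2 ^ n0) R‖ ≤ ∫ R in Icc X (2 * X), (SupE H R + V R / (2 * l) + l / 2) / sqrt X := by
    rw [intervalIntegral.integral_of_le hX2, ← integral_Icc_eq_integral_Ioc]
    refine setIntegral_mono_on ?_ (((iS.add (v1.div_const _)).add iC).div_const _) measurableSet_Icc hpt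
    exact (Ac_cont H _).norm.continuousOn.integrableOn_compact isCompact_Icc
  have h4 : ∫ R in Icc X (2 * X), (SupE H R + V R / (2 * l) + l / 2) / sqrt X =
      ((∫ R in Icc X (2 * X), SupE H R) + (∫ R in Icc X (2 * X), V R) / (2 * l) + l / 2 * X) / sqrt X := by
    have i1 : IntegrableOn (fun R => V R / (2 * l)) (Icc X (2 * X)) := v1.div_const _
    have i2 : IntegrableOn (fun R => SupE H R + V R / (2 * l)) (Icc X (2 * X)) := iS.add i1
    rw [integral_div, integral_add i2 iC, integral_add iS i1, integral_div]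
    congr 2
    rw [setIntegral_const, Real.volume_real_Icc_of_le (by linarith), smul_eq_mul]
    ring
  rw [h4] at h3
  have h5 : (a * X - K) * sqrt X ≤ (∫ R in Icc X (2 * X), SupE H R) + (∫ R in Icc X (2 * X), V R) / (2 * l) + l / 2 * X := by
    have h6 := h2.trans h3
    rwa [le_div_iff₀ hsX] at h6
  have h7 : K ≤ a / 4 * X := by
    rw [div_le_iff₀ ha] at hXb
    linarith
  have h8 : (∫ R in Icc X (2 * X), V R) / (2 * l) ≤ a / 8 * (X * sqrt X) := by
    rw [div_le_iff₀ (by positivity)]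
    refine v3.trans (le_of_eq ?_)
    have hs2 : sqrt X * sqrt X = X := Real.mul_self_sqrt hX0.le
    rw [hl]
    calc (a / 4) ^ 2 * X ^ 2 = (a / 4) ^ 2 * (X * X) := by ring
      _ = (a / 4) ^ 2 * (X * (sqrt X * sqrt X)) := by rw [hs2]
      _ = a / 8 * (X * sqrt X) * (2 * (a / 4 * sqrt X)) := by ring
  have h9 : l / 2 * X = a / 8 * (X * sqrt X) := by rw [hl]; ring
  have h10 : 3 / 4 * a * (X * sqrt X) ≤ (a * X - K) * sqrt X := by
    have h11 := mul_le_mul_of_nonneg_right h7 hsX.le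
    nlinarith
  have h12 : X ^ (3 / 2 : ℝ) = X * sqrt X := by
    rw [show (3 / 2 : ℝ) = 1 + 1 / 2 by norm_num, Real.rpow_add hX0, Real.rpow_one, ← Real.sqrt_eq_rpow]
  have h13 : a / 2 * X ^ (3 / 2 : ℝ) ≤ ∫ R in Icc X (2 * X), SupE H R := by
    rw [h12]
    linarith
  have h14 : ∫⁻ R in Icc X (2 * X), ⨆ c : ℝ × ℝ, ENNReal.ofReal |cntc H c R - area H * R ^ 2| = ∫⁻ R in Icc X (2 * X), ENNReal.ofReal (SupE H R) := by
    refine lintegral_congr fun R => ?_
    have := f4 1 one_pos R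
    simpa only [Real.rpow_one] using this
  rw [h14, ← ofReal_integral_eq_lintegral_ofReal iS (Eventually.of_forall fun R => supE_nonneg H R)]
  exact ENNReal.ofReal_le_ofReal h13

end Pool.Agent.Helper27.LX
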