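import Pool.Agent.Helper22.LP.Defs

/-!
# LMA (MP_fb29e9_nt): nonresonance of almost every frame
-/

open MeasureTheory Real Set Filter Topology

set_option autoImplicit false

namespace Pool.Agent.Helper27.LX

open Pool.Agent.Helper22.LP (Fr fv fk cp nr tr hom)

/-- the level sets of a homogeneous function are null sets -/
theorem level_null {g : ℝ × ℝ → ℝ} (hg : Measurable g) (hh : ∀ t : ℝ, 0 < t → ∀ x : ℝ × ℝ, g (t * x.1, t * x.2) = t * g x) {t : ℝ} (ht : t ≠ 0) :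
    volume {x : ℝ × ℝ | g x = t} = 0 := by
  have hc : Set.Countable {t : ℝ | 0 < volume {x : ℝ × ℝ | g x = t}} := Measure.countable_meas_level_set_pos hg
  obtain ⟨r, hr0, hr⟩ : ∃ r : ℝ, 0 < r ∧ volume {x : ℝ × ℝ | g x = r * t} = 0 := by
    by_contra hcon
    push Not at hcon
    have h1 : Set.Ioi (0 : ℝ) ⊆ (fun s => s / t) '' {t : ℝ | 0 < volume {x : ℝ × ℝ | g x = t}} := by
      intro r hr
      refine ⟨r * t, pos_iff_ne_zero.2 (hcon r hr), ?_⟩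
      simp only
      field_simp
    have h2 : (Set.Ioi (0 : ℝ)).Countable := (hc.image _).mono h1
    have h3 := h2.measure_zero volume
    rw [Real.volume_Ioi] at h3
    exact ENNReal.top_ne_zero h3
  have e : {x : ℝ × ℝ | g x = t} = (r • ·) ⁻¹' {x : ℝ × ℝ | g x = r * t} := by
    ext x
    simp only [Set.mem_ofPred_eq, mem_preimage]
    have h1 : r • x = (r * x.1, r * x.2) := rfl
    rw [h1, hh r hr0 x]
    constructor
    · intro h
      rw [h]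
    · intro h
      exact mul_left_cancel₀ hr0.ne' h
  rw [e, Measure.addHaar_preimage_smul _ hr0.ne', hr, mul_zero]

theorem affine_null {S : Set (ℝ × ℝ)} (hS : volume S = 0) (a : ℝ × ℝ) {b : ℝ} (hb : b ≠ 0) :
    volume {y : ℝ × ℝ | (a.1 + b * y.1, a.2 + b * y.2) ∈ S} = 0 := by
  have e : {y : ℝ × ℝ | (a.1 + b * y.1, a.2 + b * y.2) ∈ S} = (b • ·) ⁻¹' ((a + ·) ⁻¹' S) := by
    ext y
    rfl
  rw [e, Measure.addHaar_preimage_smul _ hb, measure_preimage_add, hS, mul_zero]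

/-- one sign, one frequency -/
theorem nr_one {g : ℝ × ℝ → ℝ} (hg : Measurable g) (hh : ∀ t : ℝ, 0 < t → ∀ x : ℝ × ℝ, g (t * x.1, t * x.2) = t * g x)
    (e u : ℝ) (hu : u ≠ 0) (k : ℤ × ℤ) (hk : k.2 ≠ 0) :
    ∀ᵐ f : Fr, g (e * f.1.1, e * f.1.2) ≠ 0 → g ((k.1 : ℝ) * f.1.1 + (k.2 : ℝ) * f.2.1, (k.1 : ℝ) * f.1.2 + (k.2 : ℝ) * f.2.2) ≠ u * g (e * f.1.1, e * f.1.2) := by
  have hk' : (k.2 : ℝ) ≠ 0 := Int.cast_ne_zero.2 hk
  let S : Set Fr := {f | g (e * f.1.1, e * f.1.2) ≠ 0 ∧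
    g ((k.1 : ℝ) * f.1.1 + (k.2 : ℝ) * f.2.1, (k.1 : ℝ) * f.1.2 + (k.2 : ℝ) * f.2.2) = u * g (e * f.1.1, e * f.1.2)}
  have m1 : Measurable fun f : Fr => g (e * f.1.1, e * f.1.2) := hg.comp (by fun_prop)
  have m2 : Measurable fun f : Fr => g ((k.1 : ℝ) * f.1.1 + (k.2 : ℝ) * f.2.1, (k.1 : ℝ) * f.1.2 + (k.2 : ℝ) * f.2.2) := hg.comp (by fun_prop)
  have hS : MeasurableSet S := by
    refine MeasurableSet.inter (measurableSet_eq_fun m1 measurable_const).compl (measurableSet_eq_fun m2 (m1.const_mul u))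
  have h1 : (volume : Measure Fr) S = 0 := by
    rw [Measure.volume_eq_prod, Measure.measure_prod_null hS]
    refine Eventually.of_forall fun x => ?_
    by_cases h0 : g (e * x.1, e * x.2) = 0
    · have : Prod.mk x ⁻¹' S = ∅ := by
        ext y
        simp only [mem_preimage, mem_empty_iff_false, iff_false]
        exact fun h => h.1 h0
      simp only [this, measure_empty, Pi.zero_apply]
    · refine measure_mono_null ?_ (affine_null (level_null hg hh (t := u * g (e * x.1, e * x.2)) (mul_ne_zero hu h0)) ((k.1 : ℝ) * x.1, (k.1 : ℝ) * x.2) hk')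
      intro y hy
      exact hy.2
  have h2 : ∀ᵐ f : Fr, f ∉ S := measure_eq_zero_iff_ae_notMem.1 h1
  filter_upwards [h2] with f hf h3 h4
  exact hf ⟨h3, h4⟩

/-- nonresonance of almost every frame -/
theorem nr_frames {g : ℝ × ℝ → ℝ} (hg : Measurable g) (hh : ∀ t : ℝ, 0 < t → ∀ x : ℝ × ℝ, g (t * x.1, t * x.2) = t * g x) :
    ∀ᵐ f : Fr, ∀ e : ℝ, (e = 1 ∨ e = -1) → g (e * f.1.1, e * f.1.2) ≠ 0 → ∀ k : ℤ × ℤ, k.2 ≠ 0 → ∀ j m : ℕ, 1 ≤ j → 1 ≤ m →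
      ∀ s : ℝ, (s = 1 ∨ s = -1) → (j : ℝ) * g ((k.1 : ℝ) * f.1.1 + (k.2 : ℝ) * f.2.1, (k.1 : ℝ) * f.1.2 + (k.2 : ℝ) * f.2.2) ≠
        s * m * g (e * f.1.1, e * f.1.2) := by
  have h : ∀ (e : ℝ) (s : ℝ), s ≠ 0 → ∀ᵐ f : Fr, g (e * f.1.1, e * f.1.2) ≠ 0 → ∀ k : ℤ × ℤ, k.2 ≠ 0 → ∀ j m : ℕ, 1 ≤ j → 1 ≤ m →
      (j : ℝ) * g ((k.1 : ℝ) * f.1.1 + (k.2 : ℝ) * f.2.1, (k.1 : ℝ) * f.1.2 + (k.2 : ℝ) * f.2.2) ≠ s * m * g (e * f.1.1, e * f.1.2) := by
    intro e s hs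
    have h1 : ∀ᵐ f : Fr, ∀ k : ℤ × ℤ, ∀ j m : ℕ, k.2 ≠ 0 → 1 ≤ j → 1 ≤ m → g (e * f.1.1, e * f.1.2) ≠ 0 →
        g ((k.1 : ℝ) * f.1.1 + (k.2 : ℝ) * f.2.1, (k.1 : ℝ) * f.1.2 + (k.2 : ℝ) * f.2.2) ≠ (s * m / j) * g (e * f.1.1, e * f.1.2) := by
      rw [ae_all_iff]
      intro k
      rw [ae_all_iff]
      intro j
      rw [ae_all_iff]
      intro m
      by_cases hk : k.2 ≠ 0 ∧ 1 ≤ j ∧ 1 ≤ m
      · obtain ⟨h2, h3, h4⟩ := hk
        have hj : (j : ℝ) ≠ 0 := Nat.cast_ne_zero.2 (by omega)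
        have hm : (m : ℝ) ≠ 0 := Nat.cast_ne_zero.2 (by omega)
        filter_upwards [nr_one hg hh e (s * m / j) (div_ne_zero (mul_ne_zero hs hm) hj) k h2] with f hf _ _ _
        exact hf
      · exact Eventually.of_forall fun f h2 h3 h4 => absurd ⟨h2, h3, h4⟩ hk
    filter_upwards [h1] with f hf h2 k hk j m hj hm h3
    have hj' : (j : ℝ) ≠ 0 := Nat.cast_ne_zero.2 (by omega)
    refine hf k j m hk hj hm h2 ?_
    rw [div_mul_eq_mul_div, eq_div_iff hj', mul_comm]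
    exact h3
  filter_upwards [h 1 1 one_ne_zero, h 1 (-1) (by norm_num), h (-1) 1 one_ne_zero, h (-1) (-1) (by norm_num)] with f h1 h2 h3 h4
  rintro e (rfl | rfl) he k hk j m hj hm s (rfl | rfl)
  · exact h1 he k hk j m hj hm
  · exact h2 he k hk j m hj hm
  · exact h3 he k hk j m hj hm
  · exact h4 he k hk j m hj hm

theorem hom_smul' (γ : ℝ → ℝ) {s : ℝ} (hs : 0 < s) (v : ℝ × ℝ) : hom γ (s * v.1, s * v.2) = s * hom γ v := by
  have e : cp (s * v.1, s * v.2) = (s : ℂ) * cp v := by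
    unfold cp
    apply Complex.ext <;> simp
  unfold hom nr tr
  rw [e, Complex.arg_real_mul _ hs, norm_mul, Complex.norm_real, Real.norm_of_nonneg hs.le]
  ring

theorem hom_measurable {γ : ℝ → ℝ} (hγ : Measurable γ) : Measurable (hom γ) := by
  have h1 : Measurable cp := by
    have : cp = fun v : ℝ × ℝ => (v.1 : ℂ) + (v.2 : ℂ) * Complex.I := by
      funext v
      unfold cp
      apply Complex.ext <;> simp
    rw [this]
    fun_prop
  unfold hom nr tr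
  exact h1.norm.mul (hγ.comp (Complex.measurable_arg.comp h1))

/-- the same for the frequencies `h(fk f k)`, with `fk f (1, 0) = f.1` -/
theorem nr_hom {γ : ℝ → ℝ} (hγ : Measurable γ) :
    ∀ᵐ f : Fr, ∀ k0 : ℤ × ℤ, (k0 = (1, 0) ∨ k0 = (-1, 0)) → hom γ (fk f k0) ≠ 0 → ∀ k : ℤ × ℤ, k.2 ≠ 0 → ∀ j m : ℕ, 1 ≤ j → 1 ≤ m →
      ∀ s : ℝ, (s = 1 ∨ s = -1) → (j : ℝ) * hom γ (fk f k) ≠ s * m * hom γ (fk f k0) := by
  filter_upwards [nr_frames (hom_measurable hγ) fun t ht x => hom_smul' γ ht x] with f hf k0 hk0 h0 k hk j m hj hm s hs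
  have e1 : fk f (1, 0) = (1 * f.1.1, 1 * f.1.2) := by
    unfold fk fv
    simp
  have e2 : fk f (-1, 0) = (-1 * f.1.1, -1 * f.1.2) := by
    unfold fk fv
    simp
  rcases hk0 with rfl | rfl
  · rw [e1] at h0 ⊢
    exact hf 1 (Or.inl rfl) h0 k hk j m hj hm s hs
  · rw [e2] at h0 ⊢
    exact hf (-1) (Or.inr rfl) h0 k hk j m hj hm s hs

end Pool.Agent.Helper27.LX
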