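import Pool.Agent.Helper27.LX.Nr
import Pool.Agent.Helper22.OV.Shift

/-!
# LMA (MP_fb29e9_nt): nonresonance of the frequencies of the error along a path, for almost every lattice
-/

open MeasureTheory Real Set Filter Topology

set_option autoImplicit false

namespace Pool.Agent.Helper27.LX

open Pool.Agent.Helper22.AE
open Pool.Agent.Helper22.OV (shf)
open Pool.Agent.Helper22.LP (Fr fdet fv fk cp nr tr hom Hf)

theorem nr_cos (u : ℝ × ℝ) : nr u * cos (tr u) = u.1 := by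
  unfold nr tr
  rw [Complex.norm_mul_cos_arg]
  rfl

theorem nr_sin (u : ℝ × ℝ) : nr u * sin (tr u) = u.2 := by
  unfold nr tr
  rw [Complex.norm_mul_sin_arg]
  rfl

theorem hom_shf (H : ℝ → ℝ) (v u : ℝ × ℝ) : hom (shf H v) u = hom H u + (u.1 * v.1 + u.2 * v.2) := by
  have h1 := nr_cos u
  have h2 := nr_sin u
  unfold hom shf
  calc nr u * (H (tr u) + (v.1 * cos (tr u) + v.2 * sin (tr u)))
      = nr u * H (tr u) + (v.1 * (nr u * cos (tr u)) + v.2 * (nr u * sin (tr u))) := by ring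
    _ = _ := by
      rw [h1, h2]
      ring

/-- the frequency along the path -/
theorem fq_hom (H : ℝ → ℝ) (f : Fr) (v : ℝ × ℝ) {k : ℤ × ℤ} (hk : k ≠ 0) :
    nk k * Hf (shf H v) f (tk k) - ((k.1 : ℝ) * (f.1.1 * v.1 + f.1.2 * v.2) + (k.2 : ℝ) * (f.2.1 * v.1 + f.2.2 * v.2)) = hom H (fk f k) := by
  have hn : 0 < nk k := by
    unfold nk
    rw [norm_pos_iff]
    intro h
    apply hk
    have h1 := congrArg Complex.re h
    have h2 := congrArg Complex.im h
    simp only [cz, Complex.zero_re, Complex.zero_im] at h1 h2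
    exact Prod.ext (by exact_mod_cast h1) (by exact_mod_cast h2)
  have h1 : nk k * cos (tk k) = k.1 := by
    unfold nk tk
    rw [Complex.norm_mul_cos_arg]
    rfl
  have h2 : nk k * sin (tk k) = k.2 := by
    unfold nk tk
    rw [Complex.norm_mul_sin_arg]
    rfl
  have h3 : nk k * Hf (shf H v) f (tk k) = hom (shf H v) (fk f k) := by
    unfold Hf
    rw [← hom_smul' _ hn]
    congr 1
    unfold fk fv
    simp only
    refine Prod.ext ?_ ?_
    · simp only
      rw [← h1, ← h2]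
      ring
    · simp only
      rw [← h1, ← h2]
      ring
  rw [h3, hom_shf]
  unfold fk fv
  simp only
  ring

/-- nonresonance along the path, for almost every frame -/
theorem nr_ae' {H : ℝ → ℝ} (hH : Measurable H) (v : ℝ × ℝ) : ∀ᵐ f : Fr, ∀ w : ℝ × ℝ,
    w = (f.1.1 * v.1 + f.1.2 * v.2, f.2.1 * v.1 + f.2.2 * v.2) → ∀ F : ℤ × ℤ → ℝ,
    F = (fun k => nk k * Hf (shf H v) f (tk k) - ((k.1 : ℝ) * w.1 + (k.2 : ℝ) * w.2)) →
    ∀ e : ℤ, (e = 1 ∨ e = -1) → 0 < F (e, 0) → ∀ k : ℤ × ℤ, k.2 ≠ 0 → ∀ j m : ℕ, 1 ≤ j → 1 ≤ m →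
      (j : ℝ) * F k ≠ m * F (e, 0) ∧ (j : ℝ) * F k ≠ -(m * F (e, 0)) := by
  filter_upwards [nr_hom hH] with f hf w hw F hF e he h0 k hk j m hj hm
  have hk0 : k ≠ 0 := by
    rintro rfl
    exact hk rfl
  have he0 : ((e, 0) : ℤ × ℤ) ≠ 0 := by
    intro h
    have := congrArg Prod.fst h
    rcases he with rfl | rfl <;> simp at this
  have e1 : F k = hom H (fk f k) := by
    rw [hF, hw]
    exact fq_hom H f v hk0
  have e2 : F (e, 0) = hom H (fk f (e, 0)) := by
    rw [hF, hw]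
    exact fq_hom H f v he0
  rw [e2] at h0
  rw [e1, e2]
  have hk1 : ((e, 0) : ℤ × ℤ) = (1, 0) ∨ ((e, 0) : ℤ × ℤ) = (-1, 0) := by
    rcases he with rfl | rfl
    · exact Or.inl rfl
    · exact Or.inr rfl
  have h1 := hf (e, 0) hk1 h0.ne' k hk j m hj hm
  refine ⟨?_, ?_⟩
  · have h2 := h1 1 (Or.inl rfl)
    rw [one_mul] at h2
    exact h2
  · have h2 := h1 (-1) (Or.inr rfl)
    intro h3
    apply h2
    rw [h3]
    ring

end Pool.Agent.Helper27.LX
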